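import Mathlib
import Pool.Agent.Lib.MP_07046b_lc.Main

/-!
The family of DFT matrices is not Valiant-rigid over the cyclotomic fields.
-/

namespace Pool.Agent.Results.MP_07046b_lc.DFTNotValiantRigid

/-- The rigidity `R^F_M(r)`: the least number of entries of the `n × n` matrix `M` over the field
`F` that must be changed, with the new entries taken from `F`, so that the resulting matrix has
rank at most `r` over `F`. -/
noncomputable def rigidity {F : Type} [Field F] {n : ℕ} (M : Matrix (Fin n) (Fin n) F)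
    (r : ℕ) : ℕ :=
  sInf {c : ℕ | ∃ M' : Matrix (Fin n) (Fin n) F, M'.rank ≤ r ∧
    Nat.card {p : Fin n × Fin n // M' p.1 p.2 ≠ M p.1 p.2} = c}

/-- The family `(M N)`, indexed by the positive integers `N`, is Valiant-rigid over the fields
`F N`: there are `ε > 0`, `δ > 0` and `N₀` such that `R^{F N}_{M N}(ε N) ≥ N ^ (1 + δ)` for all
`N ≥ N₀`. -/
def IsValiantRigid (F : ℕ → Type) [∀ N, Field (F N)]
    (M : ∀ N : ℕ, Matrix (Fin N) (Fin N) (F N)) : Prop :=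
  ∃ ε : ℝ, 0 < ε ∧ ∃ δ : ℝ, 0 < δ ∧ ∃ N₀ : ℕ, ∀ N : ℕ, 1 ≤ N → N₀ ≤ N →
    (N : ℝ) ^ (1 + δ) ≤ (rigidity (M N) ⌊ε * (N : ℝ)⌋₊ : ℝ)

/-- The `N × N` DFT matrix `(ω ^ (i j))`, `0 ≤ i, j < N`, as a matrix over the subfield `ℚ(ω)` of
`ℂ`. -/
noncomputable def dftMatrix (ω : ℂ) (N : ℕ) :
    Matrix (Fin N) (Fin N) (IntermediateField.adjoin ℚ ({ω} : Set ℂ)) :=
  fun i j => (IntermediateField.AdjoinSimple.gen ℚ ω) ^ ((i : ℕ) * (j : ℕ))

/-- For every choice of primitive `N`th roots of unity `ω N ∈ ℂ`, the family of the DFT matrices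
is not Valiant-rigid over the cyclotomic fields `ℚ(ω N)`. -/
theorem result (ω : ℕ → ℂ) (hω : ∀ N : ℕ, 1 ≤ N → IsPrimitiveRoot (ω N) N) :
    ¬ IsValiantRigid (fun N => IntermediateField.adjoin ℚ ({ω N} : Set ℂ))
      (fun N => dftMatrix (ω N) N) := by
  rintro ⟨ε, hε, δ, hδ, N₀, h⟩
  obtain ⟨N, hN, hmain⟩ := Pool.Agent.Lib.MP_07046b_lc.main.{0} ε δ hε hδ (max N₀ 1)
  have hN1 : 1 ≤ N := (le_max_right _ _).trans hN
  have hN0 : N₀ ≤ N := (le_max_left _ _).trans hN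
  have hprim : IsPrimitiveRoot (IntermediateField.AdjoinSimple.gen ℚ (ω N)) N := by
    have h1 := hω N hN1
    rw [← IntermediateField.AdjoinSimple.algebraMap_gen ℚ (ω N)] at h1
    exact h1.of_map_of_injective (FaithfulSMul.algebraMap_injective _ _)
  obtain ⟨M', hr, hc⟩ := hmain _ (IntermediateField.AdjoinSimple.gen ℚ (ω N)) hprim
  have h2 := h N hN1 hN0
  have h3 : rigidity (dftMatrix (ω N) N) ⌊ε * (N : ℝ)⌋₊ ≤
      Nat.card {p : Fin N × Fin N // M' p.1 p.2 ≠ dftMatrix (ω N) N p.1 p.2} := by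
    apply Nat.sInf_le
    exact ⟨M', Nat.le_floor hr, rfl⟩
  have h4 : (rigidity (dftMatrix (ω N) N) ⌊ε * (N : ℝ)⌋₊ : ℝ) < (N : ℝ) ^ (1 + δ) :=
    lt_of_le_of_lt (by exact_mod_cast h3) hc
  exact absurd h2 (not_le.mpr h4)

end Pool.Agent.Results.MP_07046b_lc.DFTNotValiantRigid
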